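import Mathlib

/-!
# An open homomorphism without quasihomomorphism section
-/

set_option autoImplicit false

open Set Filter Topology

namespace Pool.Agent.Results.MP_9c76b4_al.NoSection

/-- Quasihomomorphisms between topological groups. -/
def IsQuasihom {G H : Type} [Group G] [TopologicalSpace G] [Group H] [TopologicalSpace H]
    (t : H → G) : Prop :=
  t 1 = 1 ∧ ContinuousAt (fun p : H × H => t p.1 * t p.2 * (t (p.1 * p.2))⁻¹) (1, 1) ∧
    ∀ y : H, ContinuousAt (fun h : H => t y * t h * (t y)⁻¹ * (t (y * h * y⁻¹))⁻¹) 1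

/-- the base group -/
def H0 : Type := ℝ →₀ ZMod 2

noncomputable instance : AddCommGroup H0 := inferInstanceAs (AddCommGroup (ℝ →₀ ZMod 2))

/-- evaluation -/
def ev (i : ℝ) : H0 → ZMod 2 := fun h => (show ℝ →₀ ZMod 2 from h) i

theorem ev_add (i : ℝ) (a b : H0) : ev i (a + b) = ev i a + ev i b := rfl
theorem ev_neg (i : ℝ) (a : H0) : ev i (-a) = -ev i a := rfl
theorem ev_zero (i : ℝ) : ev i (0 : H0) = 0 := rfl

/-- elements vanishing on a set -/
def HC (C : Set ℝ) : Set H0 := {h | ∀ i ∈ C, ev i h = 0}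

/-- the neighbourhoods of zero -/
noncomputable def basis : AddGroupFilterBasis H0 where
  sets := {U | ∃ C : Set ℝ, C.Countable ∧ U = HC C}
  nonempty := ⟨_, ∅, countable_empty, rfl⟩
  inter_sets := by
    rintro _ _ ⟨C, hC, rfl⟩ ⟨C', hC', rfl⟩
    exact ⟨_, ⟨C ∪ C', hC.union hC', rfl⟩, fun h hh =>
      ⟨fun i hi => hh i (Or.inl hi), fun i hi => hh i (Or.inr hi)⟩⟩
  zero' := by
    rintro _ ⟨C, hC, rfl⟩ i _
    exact ev_zero i
  add' := by
    rintro _ ⟨C, hC, rfl⟩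
    refine ⟨_, ⟨C, hC, rfl⟩, ?_⟩
    rintro _ ⟨a, ha, b, hb, rfl⟩ i hi
    rw [ev_add, ha i hi, hb i hi, add_zero]
  neg' := by
    rintro _ ⟨C, hC, rfl⟩
    refine ⟨_, ⟨C, hC, rfl⟩, ?_⟩
    intro a ha i hi
    rw [ev_neg, ha i hi, neg_zero]
  conj' := by
    rintro x _ ⟨C, hC, rfl⟩
    refine ⟨_, ⟨C, hC, rfl⟩, ?_⟩
    intro a ha
    show x + a + -x ∈ HC C
    have : x + a + -x = a := by abel
    rw [this]
    exact ha

noncomputable instance : TopologicalSpace H0 := basis.topology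
instance : IsTopologicalAddGroup H0 := basis.isTopologicalAddGroup

theorem mem_nhds_zero {U : Set H0} : U ∈ 𝓝 (0 : H0) ↔ ∃ C : Set ℝ, C.Countable ∧ HC C ⊆ U := by
  rw [basis.nhds_zero_hasBasis.mem_iff]
  constructor
  · rintro ⟨_, ⟨C, hC, rfl⟩, h⟩
    exact ⟨C, hC, h⟩
  · rintro ⟨C, hC, h⟩
    exact ⟨_, ⟨C, hC, rfl⟩, h⟩

/-- the sum of the coordinates -/
noncomputable def sm : H0 →+ ZMod 2 :=
  (Finsupp.liftAddHom fun _ : ℝ => AddMonoidHom.id (ZMod 2) : (ℝ →₀ ZMod 2) →+ ZMod 2)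

/-- the group of triadic rationals -/
def D : AddSubgroup ℝ where
  carrier := {x | ∃ (n : ℕ) (m : ℤ), x * 3 ^ n = m}
  zero_mem' := ⟨0, 0, by simp⟩
  add_mem' := by
    rintro x y ⟨n, m, h⟩ ⟨k, l, h'⟩
    refine ⟨n + k, m * 3 ^ k + l * 3 ^ n, ?_⟩
    push_cast
    rw [← h, ← h']
    ring
  neg_mem' := by
    rintro x ⟨n, m, h⟩
    refine ⟨n, -m, ?_⟩
    push_cast
    rw [← h]
    ring

theorem D_dense (x0 c : ℝ) (A : Set ℝ) (hA : A ∈ 𝓝 x0) : ∃ y ∈ A, y - c ∈ D := by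
  obtain ⟨ε, hε, hA⟩ := Metric.mem_nhds_iff.mp hA
  obtain ⟨n, hn⟩ := exists_pow_lt_of_lt_one hε (by norm_num : (1 / 3 : ℝ) < 1)
  have h3 : (0 : ℝ) < 3 ^ n := by positivity
  have e3 : (1 / 3 : ℝ) ^ n = 1 / 3 ^ n := by rw [div_pow, one_pow]
  refine ⟨c + ⌊(x0 - c) * 3 ^ n⌋ / 3 ^ n, hA ?_, n, ⌊(x0 - c) * 3 ^ n⌋, ?_⟩
  · rw [Metric.mem_ball, Real.dist_eq, abs_lt]
    have h1 := Int.floor_le ((x0 - c) * 3 ^ n)
    have h2 := Int.lt_floor_add_one ((x0 - c) * 3 ^ n)
    have h4 : (⌊(x0 - c) * 3 ^ n⌋ : ℝ) / 3 ^ n ≤ x0 - c := by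
      rw [div_le_iff₀ h3]
      exact h1
    have h5 : x0 - c < (⌊(x0 - c) * 3 ^ n⌋ : ℝ) / 3 ^ n + 1 / 3 ^ n := by
      rw [← add_div, lt_div_iff₀ h3]
      exact h2
    rw [e3] at hn
    constructor <;> linarith
  · field_simp
    ring

theorem val_add_aux (a b : ZMod 2) : ((a.val : ℝ) + b.val - (a + b).val) / 2 ∈ D := by
  have : ∀ a b : ZMod 2, ∃ m : ℤ, (a.val : ℤ) + b.val - (a + b).val = 2 * m := by
    intro a b
    fin_cases a <;> fin_cases b
    · exact ⟨0, rfl⟩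
    · exact ⟨0, rfl⟩
    · exact ⟨0, rfl⟩
    · exact ⟨1, rfl⟩
  obtain ⟨m, hm⟩ := this a b
  refine ⟨0, m, ?_⟩
  have h : (a.val : ℝ) + b.val - (a + b).val = 2 * m := by exact_mod_cast hm
  rw [h]
  ring

/-- the covering group -/
noncomputable def G0 : AddSubgroup (ℝ × H0) where
  carrier := {p | p.1 - (sm p.2).val / 2 ∈ D}
  zero_mem' := by
    show (0 : ℝ) - ((sm 0).val : ℝ) / 2 ∈ D
    rw [map_zero]
    simp [D.zero_mem]
  add_mem' := by
    rintro ⟨x, a⟩ ⟨y, b⟩ ha hb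
    show x + y - ((sm (a + b)).val : ℝ) / 2 ∈ D
    rw [map_add]
    have h := D.add_mem (D.add_mem ha hb) (val_add_aux (sm a) (sm b))
    convert h using 1
    simp only
    ring
  neg_mem' := by
    rintro ⟨x, a⟩ ha
    show -x - ((sm (-a)).val : ℝ) / 2 ∈ D
    have e : sm (-a) = sm a := by
      rw [map_neg]
      have : ∀ z : ZMod 2, -z = z := by decide
      exact this _
    rw [e]
    have h1 : ((sm a).val : ℝ) ∈ D := ⟨0, (sm a).val, by simp⟩
    have h := D.add_mem (D.neg_mem ha) (D.neg_mem h1)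
    convert h using 1
    simp only
    ring

/-- the projection -/
noncomputable def pr : G0 →+ H0 := (AddMonoidHom.snd ℝ H0).comp G0.subtype

theorem pr_apply (g : G0) : pr g = (g : ℝ × H0).2 := rfl

theorem continuous_pr : Continuous pr := continuous_snd.comp continuous_subtype_val

theorem isOpenMap_pr : IsOpenMap pr := by
  rw [isOpenMap_iff_nhds_le]
  rintro ⟨⟨x, h⟩, hg⟩
  intro S hS
  rw [mem_map, nhds_subtype_eq_comap, mem_comap] at hS
  obtain ⟨t, ht, htS⟩ := hS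
  rw [mem_nhds_prod_iff] at ht
  obtain ⟨A, hA, B, hB, hAB⟩ := ht
  show S ∈ 𝓝 h
  refine mem_of_superset hB fun k hk => ?_
  obtain ⟨y, hy, hyD⟩ := D_dense x ((sm k).val / 2) A hA
  exact htS (show (⟨(y, k), hyD⟩ : G0) ∈ _ from hAB ⟨hy, hk⟩)

theorem surjective_pr : Function.Surjective pr := by
  intro h
  refine ⟨⟨((sm h).val / 2, h), ?_⟩, rfl⟩
  show ((sm h).val : ℝ) / 2 - (sm h).val / 2 ∈ D
  rw [sub_self]
  exact D.zero_mem

theorem no_section (s : H0 → G0) (hs : ∀ h, pr (s h) = h) (hs0 : s 0 = 0)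
    (hc : ContinuousAt (fun p : H0 × H0 => s p.1 + s p.2 - s (p.1 + p.2)) (0, 0)) : False := by
  let x : H0 → ℝ := fun h => (s h : ℝ × H0).1
  have hx0 : x 0 = 0 := by
    show (s 0 : ℝ × H0).1 = 0
    rw [hs0]
    rfl
  have hxc : ContinuousAt (fun p : H0 × H0 => x p.1 + x p.2 - x (p.1 + p.2)) (0, 0) :=
    (continuous_fst.comp continuous_subtype_val).continuousAt.comp hc
  have hn : ∀ n : ℕ, ∃ C : Set ℝ, C.Countable ∧ ∀ h ∈ HC C, ∀ k ∈ HC C,
      |x h + x k - x (h + k)| < 1 / ((n : ℝ) + 1) := by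
    intro n
    have h1 : Metric.ball (0 : ℝ) (1 / ((n : ℝ) + 1)) ∈ 𝓝 (x 0 + x 0 - x (0 + 0)) := by
      rw [add_zero, hx0]
      simp only [add_zero, sub_zero]
      exact Metric.ball_mem_nhds _ (by positivity)
    have h2 := hxc h1
    rw [mem_map, nhds_prod_eq, mem_prod_iff] at h2
    obtain ⟨A, hA, B, hB, hAB⟩ := h2
    obtain ⟨C, hC, hCA⟩ := mem_nhds_zero.mp hA
    obtain ⟨C', hC', hCB⟩ := mem_nhds_zero.mp hB
    refine ⟨C ∪ C', hC.union hC', fun h hh k hk => ?_⟩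
    have := hAB (Set.mk_mem_prod (hCA fun i hi => hh i (Or.inl hi)) (hCB fun i hi => hk i (Or.inr hi)))
    simpa using this
  choose C hC1 hC2 using hn
  have hU : (⋃ n, C n).Countable := countable_iUnion hC1
  have hadd : ∀ h ∈ HC (⋃ n, C n), ∀ k ∈ HC (⋃ n, C n), x h + x k - x (h + k) = 0 := by
    intro h hh k hk
    by_contra hne
    obtain ⟨n, hn⟩ := exists_nat_one_div_lt (abs_pos.mpr hne)
    have := hC2 n h (fun i hi => hh i (mem_iUnion.mpr ⟨n, hi⟩)) k
      (fun i hi => hk i (mem_iUnion.mpr ⟨n, hi⟩))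
    linarith
  obtain ⟨i, hi⟩ : ∃ i : ℝ, i ∉ ⋃ n, C n := by
    by_contra hcon
    push Not at hcon
    have : (⋃ n, C n) = univ := eq_univ_of_forall hcon
    rw [this] at hU
    exact not_countable_univ hU
  let h : H0 := (Finsupp.single i 1 : ℝ →₀ ZMod 2)
  have hh : h ∈ HC (⋃ n, C n) := by
    intro j hj
    show (Finsupp.single i 1 : ℝ →₀ ZMod 2) j = 0
    refine Finsupp.single_eq_of_ne ?_
    rintro rfl
    exact hi hj
  have h2 : h + h = 0 := by
    have e : (Finsupp.single i 1 : ℝ →₀ ZMod 2) + (Finsupp.single i 1 : ℝ →₀ ZMod 2) = 0 := by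
      rw [← Finsupp.single_add]
      have : (1 + 1 : ZMod 2) = 0 := by decide
      rw [this, Finsupp.single_zero]
    exact e
  have h3 := hadd h hh h hh
  rw [h2, hx0] at h3
  have h4 : x h = 0 := by linarith
  have h5 : (s h : ℝ × H0).1 - ((sm (s h : ℝ × H0).2).val : ℝ) / 2 ∈ D := (s h).2
  have h6 : (s h : ℝ × H0).2 = h := hs h
  have h7 : sm h = 1 := by
    show (Finsupp.liftAddHom fun _ : ℝ => AddMonoidHom.id (ZMod 2)) (Finsupp.single i 1) = 1
    rw [Finsupp.liftAddHom_apply_single]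
    rfl
  rw [h6, h7] at h5
  obtain ⟨n, m, hm⟩ := h5
  have h8 : x h - ((1 : ZMod 2).val : ℝ) / 2 = -(1 / 2) := by
    rw [h4]
    have : (1 : ZMod 2).val = 1 := rfl
    rw [this]
    norm_num
  have h9 : (-(1 / 2) : ℝ) * 3 ^ n = m := by
    rw [← h8]
    exact hm
  have h10 : (3 : ℤ) ^ n = -2 * m := by
    have : (3 : ℝ) ^ n = -2 * m := by
      rw [← h9]
      ring
    exact_mod_cast this
  have h11 : Odd ((3 : ℤ) ^ n) := Odd.pow (by decide)
  rw [h10] at h11
  have : Even (-2 * m) := ⟨-m, by ring⟩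
  exact (Int.not_even_iff_odd.mpr h11) this

instance : T2Space H0 := by
  refine IsTopologicalAddGroup.t2Space_of_zero_sep fun h hne => ?_
  have : ∃ i, ev i h ≠ 0 := by
    by_contra hcon
    push Not at hcon
    exact hne (Finsupp.ext hcon)
  obtain ⟨i, hi⟩ := this
  exact ⟨HC {i}, mem_nhds_zero.mpr ⟨{i}, countable_singleton i, subset_rfl⟩, fun hh => hi (hh i rfl)⟩

/-- Q1 has a negative answer: there are (abelian Hausdorff) topological groups `G`, `H` and an open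
continuous surjective homomorphism `f : G → H` no section of which is a quasihomomorphism. -/
theorem result : ∃ (G H : Type) (_ : CommGroup G) (_ : TopologicalSpace G) (_ : CommGroup H)
    (_ : TopologicalSpace H) (f : G →* H),
    IsTopologicalGroup G ∧ T2Space G ∧ IsTopologicalGroup H ∧ T2Space H ∧
    Continuous f ∧ IsOpenMap f ∧ Function.Surjective f ∧
    ∀ s : H → G, (∀ h, f (s h) = h) → ¬ IsQuasihom s := by
  refine ⟨Multiplicative G0, Multiplicative H0, inferInstance, inferInstance, inferInstance,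
    inferInstance, AddMonoidHom.toMultiplicative pr, inferInstance,
    inferInstanceAs (T2Space G0), inferInstance, inferInstanceAs (T2Space H0),
    continuous_pr, isOpenMap_pr, surjective_pr, ?_⟩
  rintro s hs ⟨h1, h2, -⟩
  refine no_section (fun h => Multiplicative.toAdd (s (Multiplicative.ofAdd h))) hs h1 ?_
  have h3 : ContinuousAt (fun p : H0 × H0 =>
      (Multiplicative.toAdd (s (Multiplicative.ofAdd p.1)) : G0) +
      Multiplicative.toAdd (s (Multiplicative.ofAdd p.2)) +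
      -(Multiplicative.toAdd (s (Multiplicative.ofAdd (p.1 + p.2))) : G0)) (0, 0) := h2
  simpa only [← sub_eq_add_neg] using h3

end Pool.Agent.Results.MP_9c76b4_al.NoSection
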